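import Pool.Agent.W102.GI.Defs

set_option autoImplicit false

/-! Project GI, CNT from LAM. -/

namespace Pool.Agent.W924.GI

open Finset Pool.Agent.W102.GI

/-- descent positions -/
def dd {n : ℕ} (w : SP n) (j : Fin n) : Bool :=
  if j.val = 0 then w.2 j else decide (sv w j < sv w ⟨j.val - 1, by omega⟩)

theorem dd_zero {n : ℕ} (w : SP n) (j : Fin n) (h : j.val = 0) : dd w j = w.2 j := by
  unfold dd
  rw [if_pos h]

theorem dd_succ {n : ℕ} (w : SP n) (i j : Fin n) (h : j.val = i.val + 1) :
    dd w j = true ↔ sv w j < sv w i := by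
  unfold dd
  rw [if_neg (by omega), decide_eq_true_iff]
  have e : (⟨j.val - 1, by omega⟩ : Fin n) = i := by
    apply Fin.ext
    show j.val - 1 = i.val
    omega
  rw [e]

theorem compat_iff {n r : ℕ} (w : SP n) (l : Fin n → Fin (r + 1)) : Compat w l ↔
    ((∀ j : Fin n, j.val = 0 → dd w j = true → 0 < (l j).val) ∧
    ∀ i j : Fin n, j.val = i.val + 1 →
      (l i).val ≤ (l j).val ∧ (dd w j = true → (l i).val < (l j).val)) := by
  unfold Compat
  refine and_congr ?_ ?_
  · refine forall_congr' fun j => ?_
    constructor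
    · intro h h1 h2
      rw [dd_zero w j h1] at h2
      exact h h1 h2
    · intro h h1 h2
      rw [← dd_zero w j h1] at h2
      exact h h1 h2
  · refine forall_congr' fun i => forall_congr' fun j => ?_
    constructor
    · intro h h1
      exact ⟨(h h1).1, fun h2 => (h h1).2 ((dd_succ w i j h1).1 h2)⟩
    · intro h h1
      exact ⟨(h h1).1, fun h2 => (h h1).2 ((dd_succ w i j h1).2 h2)⟩

theorem card_dd {n : ℕ} (w : SP n) :
    (Finset.univ.filter (fun j : Fin n => dd w j = true)).card = des w := by
  unfold des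
  rw [← Finset.card_filter_add_card_filter_not (s := Finset.univ.filter
    (fun j : Fin n => dd w j = true)) (fun j : Fin n => j.val = 0)]
  congr 1
  · congr 1
    ext j
    simp only [mem_filter, mem_univ, true_and]
    constructor
    · rintro ⟨h1, h2⟩
      exact ⟨h2, by rw [← dd_zero w j h2]; exact h1⟩
    · rintro ⟨h1, h2⟩
      exact ⟨by rw [dd_zero w j h1]; exact h2, h1⟩
  · symm
    refine Finset.card_bij (fun p _ => p.2) ?_ ?_ ?_
    · intro p hp
      simp only [mem_filter, mem_univ, true_and] at hp ⊢
      exact ⟨(dd_succ w p.1 p.2 hp.1).2 hp.2, by omega⟩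
    · intro p hp p' hp' h
      simp only [mem_filter, mem_univ, true_and] at hp hp'
      have h1 : p.2.val = p'.2.val := congrArg Fin.val h
      refine Prod.ext (Fin.ext ?_) h
      omega
    · intro j hj
      simp only [mem_filter, mem_univ, true_and] at hj
      have hj2 : j.val = (⟨j.val - 1, by omega⟩ : Fin n).val + 1 := by
        show j.val = j.val - 1 + 1
        omega
      refine ⟨(⟨j.val - 1, by omega⟩, j), ?_, rfl⟩
      simp only [mem_filter, mem_univ, true_and]
      exact ⟨hj2, (dd_succ w _ j hj2).1 hj.1⟩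

theorem CNT (h1 : Pool.Agent.W102.GI.LAM) : Pool.Agent.W102.GI.CNT := by
  intro n r w
  have h := h1 n r (dd w)
  rw [card_dd] at h
  rw [← h]
  congr 1
  ext l
  simp only [mem_filter, mem_univ, true_and]
  exact compat_iff w l

end Pool.Agent.W924.GI
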